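import Pool.Agent.H503R3.FPR.Local

/-!
# A uniform bound
-/

set_option autoImplicit false

namespace Pool.Agent.H503R3.FPR

open IsLocalRing TensorProduct

universe u

variable (p : ℕ) [Fact p.Prime] {R : Type u} [CommRing R] [CharP R p]

/-- The condition on `R`: the regular locus of `R ⧸ P` contains a nonempty open set. -/
def GenReg (R : Type u) [CommRing R] : Prop :=
  ∀ P : Ideal R, P.IsPrime → ∃ g, g ∉ P ∧ ∀ (Q : Ideal R) (hQ : Q.IsPrime), P ≤ Q → g ∉ Q →
    ∀ (h : (Q.map (Ideal.Quotient.mk P)).IsPrime),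
      IsRegularLocalRing (Localization.AtPrime (Q.map (Ideal.Quotient.mk P)))

omit [CharP R p] in
/-- `R_Q ⧸ P R_Q` is the localization of `R ⧸ P`. -/
theorem regular_quot (P Q : Ideal R) [hP : P.IsPrime] [hQ : Q.IsPrime] (hPQ : P ≤ Q)
    (hr : ∀ (h : (Q.map (Ideal.Quotient.mk P)).IsPrime),
      IsRegularLocalRing (Localization.AtPrime (Q.map (Ideal.Quotient.mk P)))) :
    IsRegularLocalRing (Localization.AtPrime Q ⧸
      P.map (algebraMap R (Localization.AtPrime Q))) := by
  have hprime : (Q.map (Ideal.Quotient.mk P)).IsPrime := by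
    refine Ideal.map_isPrime_of_surjective Ideal.Quotient.mk_surjective ?_
    rwa [Ideal.mk_ker]
  have hr' := hr hprime
  have hsub : Algebra.algebraMapSubmonoid (R ⧸ P) Q.primeCompl =
      (Q.map (Ideal.Quotient.mk P)).primeCompl := by
    ext x
    obtain ⟨x, rfl⟩ := Ideal.Quotient.mk_surjective x
    have hmem : Ideal.Quotient.mk P x ∈ Q.map (Ideal.Quotient.mk P) ↔ x ∈ Q := by
      rw [← Ideal.mem_comap, Ideal.comap_map_of_surjective _ Ideal.Quotient.mk_surjective,
        ← RingHom.ker_eq_comap_bot, Ideal.mk_ker, sup_eq_left.mpr hPQ]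
    constructor
    · rintro ⟨z, hz, hzx⟩
      intro hx
      rw [SetLike.mem_coe, ← hzx] at hx
      apply hz
      have : Ideal.Quotient.mk P z ∈ Q.map (Ideal.Quotient.mk P) := hx
      rw [← Ideal.mem_comap, Ideal.comap_map_of_surjective _ Ideal.Quotient.mk_surjective,
        ← RingHom.ker_eq_comap_bot, Ideal.mk_ker, sup_eq_left.mpr hPQ] at this
      exact this
    · intro hx
      exact ⟨x, fun h => hx (hmem.mpr h), rfl⟩
  have hloc : IsLocalization (Q.map (Ideal.Quotient.mk P)).primeCompl
      (Localization.AtPrime Q ⧸ P.map (algebraMap R (Localization.AtPrime Q))) := by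
    rw [← hsub]
    infer_instance
  exact IsRegularLocalRing.of_ringEquiv (IsLocalization.algEquiv
    (Q.map (Ideal.Quotient.mk P)).primeCompl
    (Localization.AtPrime (Q.map (Ideal.Quotient.mk P)))
    (Localization.AtPrime Q ⧸ P.map (algebraMap R (Localization.AtPrime Q)))).toRingEquiv

theorem charP_loc (Q : Ideal R) [Q.IsPrime] : CharP (Localization.AtPrime Q) p := by
  have h0 : (p : Localization.AtPrime Q) = 0 := by
    rw [← map_natCast (algebraMap R (Localization.AtPrime Q)), CharP.cast_eq_zero, map_zero]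
  exact (CharP.charP_iff_prime_eq_zero (Fact.out : p.Prime)).mpr h0

theorem notMem_of_loc (Q : Ideal R) [Q.IsPrime] [CharP (Localization.AtPrime Q) p] (c : R) (e : ℕ)
    (h : algebraMap R (Localization.AtPrime Q) c ∉ (maximalIdeal (Localization.AtPrime Q)).map
      (iterateFrobenius (Localization.AtPrime Q) p e)) :
    c ∉ Q.map (iterateFrobenius R p e) := by
  intro hc
  apply h
  have h1 : (Q.map (iterateFrobenius R p e)).map (algebraMap R (Localization.AtPrime Q)) =
      (maximalIdeal (Localization.AtPrime Q)).map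
        (iterateFrobenius (Localization.AtPrime Q) p e) := by
    rw [← Localization.AtPrime.map_eq_maximalIdeal, Ideal.map_map, Ideal.map_map]
    congr 1
    ext x
    simp [iterateFrobenius_def]
  rw [← h1]
  exact Ideal.mem_map_of_mem _ hc

/-- The bound on a nonempty open subset of `V(P)`. -/
theorem open_bound [IsRegularRing R] (hR : GenReg R) (P : Ideal R) [hP : P.IsPrime] (c : R)
    (hc : algebraMap R (Localization.AtPrime P) c ≠ 0) :
    ∃ g, g ∉ P ∧ ∃ k, ∀ (Q : Ideal R), Q.IsPrime → P ≤ Q → g ∉ Q → ∀ e, k < p ^ e →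
      c ∉ Q.map (iterateFrobenius R p e) := by
  classical
  obtain ⟨g0, hg0, hreg⟩ := hR P hP
  have hregP : IsRegularLocalRing (Localization.AtPrime P) :=
    IsRegularRing.isRegularLocalRing_localization P
  obtain ⟨r, hr⟩ := H379R3.exists_dim_eq (B := Localization.AtPrime P)
  obtain ⟨w, hw⟩ := exists_params (Localization.AtPrime P) r hr
  -- clear denominators
  have hclear : ∀ i, ∃ x : R, x ∈ P ∧ ∃ u : Localization.AtPrime P, IsUnit u ∧
      algebraMap R (Localization.AtPrime P) x = w i * u := by
    intro i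
    obtain ⟨⟨a, s⟩, has⟩ := IsLocalization.surj P.primeCompl (w i)
    refine ⟨a, ?_, _, IsLocalization.map_units (Localization.AtPrime P) s, has.symm⟩
    have h1 : algebraMap R (Localization.AtPrime P) a ∈ maximalIdeal (Localization.AtPrime P) := by
      rw [← has, ← hw]
      exact Ideal.mul_mem_right _ _ (Ideal.subset_span ⟨i, rfl⟩)
    exact (IsLocalization.AtPrime.to_map_mem_maximal_iff (Localization.AtPrime P) P a).mp h1
  choose x hxP u hu hxu using hclear
  have hspanP : (Ideal.span (Set.range x)).map (algebraMap R (Localization.AtPrime P)) =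
      maximalIdeal (Localization.AtPrime P) := by
    rw [← hw, Ideal.map_span]
    apply le_antisymm
    · rw [Ideal.span_le]
      rintro _ ⟨_, ⟨i, rfl⟩, rfl⟩
      rw [hxu]
      exact Ideal.mul_mem_right _ _ (Ideal.subset_span ⟨i, rfl⟩)
    · rw [Ideal.span_le]
      rintro _ ⟨i, rfl⟩
      have h1 : w i * u i ∈ Ideal.span ((algebraMap R (Localization.AtPrime P)) '' Set.range x) :=
        Ideal.subset_span ⟨x i, ⟨i, rfl⟩, hxu i⟩
      rw [mul_comm] at h1
      exact (Ideal.unit_mul_mem_iff_mem _ (hu i)).mp h1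
  have hxleP : Ideal.span (Set.range x) ≤ P := by
    rw [Ideal.span_le]; rintro _ ⟨i, rfl⟩; exact hxP i
  -- `g1 P ≤ (x)`
  obtain ⟨g1, hg1, hg1P⟩ : ∃ g1, g1 ∉ P ∧ ∀ b ∈ P, g1 * b ∈ Ideal.span (Set.range x) := by
    have h1 : ∀ b ∈ P, ∃ t, t ∉ P ∧ t * b ∈ Ideal.span (Set.range x) := by
      intro b hb
      have h2 : algebraMap R (Localization.AtPrime P) b ∈
          (Ideal.span (Set.range x)).map (algebraMap R (Localization.AtPrime P)) := by
        rw [hspanP]
        exact (IsLocalization.AtPrime.to_map_mem_maximal_iff (Localization.AtPrime P) P b).mpr hb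
      rw [IsLocalization.algebraMap_mem_map_algebraMap_iff P.primeCompl] at h2
      obtain ⟨t, ht, htb⟩ := h2
      exact ⟨t, ht, htb⟩
    obtain ⟨T, hT⟩ := (inferInstance : IsNoetherianRing R).noetherian P
    choose! t ht1 ht2 using h1
    refine ⟨∏ b ∈ T, t b, ?_, ?_⟩
    · have hTP : ∀ b ∈ T, b ∈ P := fun b hb => hT ▸ Submodule.subset_span hb
      intro hmem
      obtain ⟨b, hb, hb'⟩ := (Ideal.IsPrime.prod_mem_iff).mp hmem
      exact ht1 b (hTP b hb) hb'
    · intro b hb
      rw [← hT] at hb
      refine Submodule.span_induction (p := fun b _ => (∏ b ∈ T, t b) * b ∈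
        Ideal.span (Set.range x)) ?_ ?_ ?_ ?_ hb
      · intro b hb
        have hbP : b ∈ P := hT ▸ Submodule.subset_span hb
        rw [← Finset.mul_prod_erase _ _ hb, mul_right_comm]
        exact Ideal.mul_mem_right _ _ (ht2 b hbP)
      · rw [mul_zero]; exact Ideal.zero_mem _
      · intro a b _ _ ha hb
        rw [mul_add]; exact Ideal.add_mem _ ha hb
      · intro a b _ hb
        rw [smul_eq_mul, mul_left_comm]; exact Ideal.mul_mem_left _ _ hb
  -- the order of `c` at `P`
  have hex : ∃ k, algebraMap R (Localization.AtPrime P) c ∉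
      maximalIdeal (Localization.AtPrime P) ^ k := by
    by_contra hcon
    push Not at hcon
    have h1 : algebraMap R (Localization.AtPrime P) c ∈
        ⨅ i : ℕ, maximalIdeal (Localization.AtPrime P) ^ i := by
      rw [Ideal.mem_iInf]; exact hcon
    rw [Ideal.iInf_pow_eq_bot_of_isLocalRing _ (maximalIdeal.isMaximal _).ne_top] at h1
    exact hc h1
  obtain ⟨k, hk1, hk2⟩ : ∃ k, algebraMap R (Localization.AtPrime P) c ∈
      maximalIdeal (Localization.AtPrime P) ^ k ∧ algebraMap R (Localization.AtPrime P) c ∉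
      maximalIdeal (Localization.AtPrime P) ^ (k + 1) := by
    have h1 := Nat.find_spec hex
    have h2 : Nat.find hex ≠ 0 := by
      intro h0
      rw [h0, pow_zero, Ideal.one_eq_top] at h1
      exact h1 Submodule.mem_top
    refine ⟨Nat.find hex - 1, ?_, ?_⟩
    · by_contra hcon
      exact Nat.find_min hex (by omega : Nat.find hex - 1 < Nat.find hex) hcon
    · rwa [Nat.sub_add_cancel (Nat.pos_of_ne_zero h2)]
  -- an expression of a multiple of `c` as a form
  obtain ⟨h, hhP, hhc⟩ : ∃ h, h ∉ P ∧ h * c ∈ Ideal.span (Set.range x) ^ k := by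
    rw [← hspanP, ← Ideal.map_pow,
      IsLocalization.algebraMap_mem_map_algebraMap_iff P.primeCompl] at hk1
    obtain ⟨t, ht, htb⟩ := hk1
    exact ⟨t, ht, htb⟩
  obtain ⟨F, hF, hFc⟩ := (Ideal.mem_span_pow_iff_exists_isHomogeneous x (h * c)).mp hhc
  obtain ⟨α, hα⟩ : ∃ α, F.coeff α ∉ P := by
    by_contra hcon
    push Not at hcon
    apply hk2
    have h1 : h * c ∈ P ^ (k + 1) := by
      rw [← hFc, MvPolynomial.eval_eq']
      refine Ideal.sum_mem _ fun β hβ => ?_
      rw [pow_succ']
      refine Ideal.mul_mem_mul (hcon β) ?_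
      have hdeg : ∑ i, β i = k := by
        rw [← hF (MvPolynomial.mem_support_iff.mp hβ)]
        simp [Finsupp.weight_apply, Finsupp.sum_fintype]
      rw [← hdeg, ← Finset.prod_pow_eq_pow_sum]
      exact Ideal.prod_mem_prod fun i _ => Ideal.pow_mem_pow (hxP i) _
    have h2 : algebraMap R (Localization.AtPrime P) (h * c) ∈
        maximalIdeal (Localization.AtPrime P) ^ (k + 1) := by
      rw [← Localization.AtPrime.map_eq_maximalIdeal, ← Ideal.map_pow]
      exact Ideal.mem_map_of_mem _ h1
    rw [map_mul] at h2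
    exact (Ideal.unit_mul_mem_iff_mem _ (IsLocalization.map_units (Localization.AtPrime P)
      (⟨h, hhP⟩ : P.primeCompl))).mp h2
  refine ⟨g0 * (g1 * F.coeff α), ?_, k, ?_⟩
  · intro hmem
    rcases hP.mem_or_mem hmem with h1 | h1
    · exact hg0 h1
    rcases hP.mem_or_mem h1 with h1 | h1
    · exact hg1 h1
    · exact hα h1
  intro Q hQ hPQ hgQ e hke
  have hg0Q : g0 ∉ Q := fun h1 => hgQ (Q.mul_mem_right _ h1)
  have hg1Q : g1 ∉ Q := fun h1 => hgQ (Q.mul_mem_left _ (Q.mul_mem_right _ h1))
  have hαQ : F.coeff α ∉ Q := fun h1 => hgQ (Q.mul_mem_left _ (Q.mul_mem_left _ h1))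
  have hchar := charP_loc p Q
  have hregQ : IsRegularLocalRing (Localization.AtPrime Q) :=
    IsRegularRing.isRegularLocalRing_localization Q
  apply notMem_of_loc
  set K := P.map (algebraMap R (Localization.AtPrime Q)) with hK
  have hdisj : Disjoint (Q.primeCompl : Set R) (P : Set R) := by
    rw [Set.disjoint_left]
    intro a ha haP
    exact ha (hPQ haP)
  have hKprime : K.IsPrime :=
    IsLocalization.isPrime_of_isPrime_disjoint Q.primeCompl _ P hP hdisj
  have hquot : IsRegularLocalRing (Localization.AtPrime Q ⧸ K) :=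
    regular_quot P Q hPQ (hreg Q hQ hPQ hg0Q)
  have hspanK : Ideal.span (Set.range fun i => algebraMap R (Localization.AtPrime Q) (x i)) = K := by
    have h1 : (Set.range fun i => algebraMap R (Localization.AtPrime Q) (x i)) =
        (algebraMap R (Localization.AtPrime Q)) '' Set.range x := by
      rw [← Set.range_comp]; rfl
    rw [h1, ← Ideal.map_span]
    apply le_antisymm
    · exact Ideal.map_mono hxleP
    · rw [hK, Ideal.map_le_iff_le_comap]
      intro b hb
      rw [Ideal.mem_comap]
      have h2 := Ideal.mem_map_of_mem (algebraMap R (Localization.AtPrime Q)) (hg1P b hb)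
      rw [map_mul] at h2
      exact (Ideal.unit_mul_mem_iff_mem _ (IsLocalization.map_units (Localization.AtPrime Q)
        (⟨g1, hg1Q⟩ : Q.primeCompl))).mp h2
  have hht : (r : ℕ∞) ≤ K.height := by
    rw [hK, IsLocalization.height_map_of_disjoint Q.primeCompl P hdisj]
    have h1 := IsLocalization.AtPrime.ringKrullDim_eq_height P (Localization.AtPrime P)
    rw [hr] at h1
    exact le_of_eq (by exact_mod_cast h1)
  have hfin := local_notMem p (fun i => algebraMap R (Localization.AtPrime Q) (x i)) K hspanK hht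
    e k hke (F.map (algebraMap R (Localization.AtPrime Q))) (hF.map _) α (by
      rw [MvPolynomial.coeff_map]
      exact IsLocalization.map_units (Localization.AtPrime Q) (⟨_, hαQ⟩ : Q.primeCompl))
  intro hmem
  apply hfin
  have heval : MvPolynomial.eval (fun i => algebraMap R (Localization.AtPrime Q) (x i))
      (F.map (algebraMap R (Localization.AtPrime Q))) =
      algebraMap R (Localization.AtPrime Q) h * algebraMap R (Localization.AtPrime Q) c := by
    rw [← map_mul, ← hFc, MvPolynomial.eval_map, MvPolynomial.eval₂_eq', MvPolynomial.eval_eq',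
      map_sum]
    refine Finset.sum_congr rfl fun β _ => ?_
    rw [map_mul, map_prod]
    congr 1
    refine Finset.prod_congr rfl fun i _ => ?_
    rw [map_pow]
  rw [heval]
  exact Ideal.mul_mem_left _ _ hmem

/-- The uniform bound. -/
theorem bound [IsRegularRing R] (hR : GenReg R) (c : R)
    (hc : ∀ (P : Ideal R) [P.IsPrime], algebraMap R (Localization.AtPrime P) c ≠ 0) (I : Ideal R) :
    ∃ k, ∀ (Q : Ideal R), Q.IsPrime → I ≤ Q → ∀ e, k < p ^ e →
      c ∉ Q.map (iterateFrobenius R p e) := by
  induction I using IsNoetherian.induction with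
  | hgt I ih =>
    by_cases hI : I = ⊤
    · refine ⟨0, fun Q hQ hle => ?_⟩
      rw [hI] at hle
      exact absurd (top_le_iff.mp hle) hQ.ne_top
    by_cases hp : Ideal.IsPrime I
    · obtain ⟨g, hg, k, hk⟩ := open_bound p hR I c (hc I)
      have hlt : I < I ⊔ Ideal.span {g} := by
        refine lt_of_le_of_ne le_sup_left fun h => hg ?_
        rw [h]
        exact Ideal.mem_sup_right (Ideal.mem_span_singleton_self g)
      obtain ⟨k', hk'⟩ := ih _ hlt
      refine ⟨max k k', fun Q hQ hle e he => ?_⟩
      by_cases hgQ : g ∈ Q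
      · refine hk' Q hQ (sup_le hle ?_) e (lt_of_le_of_lt (le_max_right _ _) he)
        rw [Ideal.span_singleton_le_iff_mem]; exact hgQ
      · exact hk Q hQ hle hgQ e (lt_of_le_of_lt (le_max_left _ _) he)
    · obtain ⟨a, ha, b, hb, hab⟩ : ∃ a, a ∉ I ∧ ∃ b, b ∉ I ∧ a * b ∈ I := by
        by_contra hcon
        push Not at hcon
        apply hp
        refine ⟨hI, fun {a b} hab => ?_⟩
        by_cases ha : a ∈ I
        · exact Or.inl ha
        by_cases hb : b ∈ I
        · exact Or.inr hb
        exact absurd hab (hcon a ha b hb)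
      have hlta : I < I ⊔ Ideal.span {a} := by
        refine lt_of_le_of_ne le_sup_left fun h => ha ?_
        rw [h]
        exact Ideal.mem_sup_right (Ideal.mem_span_singleton_self a)
      have hltb : I < I ⊔ Ideal.span {b} := by
        refine lt_of_le_of_ne le_sup_left fun h => hb ?_
        rw [h]
        exact Ideal.mem_sup_right (Ideal.mem_span_singleton_self b)
      obtain ⟨k, hk⟩ := ih _ hlta
      obtain ⟨k', hk'⟩ := ih _ hltb
      refine ⟨max k k', fun Q hQ hle e he => ?_⟩
      rcases hQ.mem_or_mem (hle hab) with h | h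
      · refine hk Q hQ (sup_le hle ?_) e (lt_of_le_of_lt (le_max_left _ _) he)
        rw [Ideal.span_singleton_le_iff_mem]; exact h
      · refine hk' Q hQ (sup_le hle ?_) e (lt_of_le_of_lt (le_max_right _ _) he)
        rw [Ideal.span_singleton_le_iff_mem]; exact h

end Pool.Agent.H503R3.FPR
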