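import Mathlib

/-!
# F-pure regularity: definitions
-/

set_option autoImplicit false

namespace Pool.Agent.H503R3.FPR

open TensorProduct

universe u

/-- The underlying group of `F^e_* R` is that of `R`. -/
def FrobPush (_p _e : ℕ) (R : Type u) : Type u := R

instance (p e : ℕ) (R : Type u) [CommRing R] : AddCommGroup (FrobPush p e R) :=
  inferInstanceAs (AddCommGroup R)

/-- The `R`-module structure of `F^e_* R`: restriction of scalars along the `e`-th iterate of the
Frobenius map, i.e. `r • F^e_* s = F^e_* (r ^ p ^ e * s)`. -/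
noncomputable instance (p e : ℕ) (R : Type u) [CommRing R] [Fact p.Prime] [CharP R p] :
    Module R (FrobPush p e R) :=
  Module.compHom R (iterateFrobenius R p e)

/-- A linear map `f : M → N` is pure if `f ⊗ P` is injective for every module `P`. -/
def IsPure {R : Type u} [CommRing R] {M N : Type u} [AddCommGroup M] [Module R M]
    [AddCommGroup N] [Module R N] (f : M →ₗ[R] N) : Prop :=
  ∀ (P : Type u) [AddCommGroup P] [Module R P], Function.Injective (f.rTensor P)

/-- The map `λ^e_c : R → F^e_* R`, `r ↦ F^e_* (c r ^ p ^ e)`. -/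
noncomputable def lam (p e : ℕ) (R : Type u) [CommRing R] [Fact p.Prime] [CharP R p] (c : R) :
    R →ₗ[R] FrobPush p e R where
  toFun r := (c * r ^ p ^ e : R)
  map_add' r s := by
    change c * (r + s) ^ p ^ e = c * r ^ p ^ e + c * s ^ p ^ e
    rw [add_pow_char_pow]
    ring
  map_smul' r s := by
    change c * (r * s) ^ p ^ e = iterateFrobenius R p e r * (c * s ^ p ^ e)
    rw [iterateFrobenius_def]
    ring

/-- `R` is F-pure regular: for every `c` in no minimal prime, some `λ^e_c`, `e ≥ 1`, is pure. -/
def IsFPureRegular (p : ℕ) (R : Type u) [CommRing R] [Fact p.Prime] [CharP R p] : Prop :=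
  ∀ c : R, (∀ P ∈ minimalPrimes R, c ∉ P) → ∃ e : ℕ, 1 ≤ e ∧ IsPure (lam p e R c)

/-- `R` is J-2: the regular locus of every `R`-algebra of finite type is open. -/
def IsJTwo (R : Type u) [CommRing R] : Prop :=
  ∀ (S : Type u) [CommRing S] [Algebra R S], Algebra.FiniteType R S →
    IsOpen {Q : PrimeSpectrum S | IsRegularLocalRing (Localization.AtPrime Q.asIdeal)}

end Pool.Agent.H503R3.FPR
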