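import Pool.Agent.H503R3.FPR.Mono

/-!
# A flatness criterion
-/

set_option autoImplicit false

namespace Pool.Agent.H503R3.FPR

open IsLocalRing TensorProduct

universe u

section

variable {B C : Type u} [CommRing B] [CommRing C] [Algebra B C] (y : B)

/-- the test for an ideal -/
def Test (C : Type u) [CommRing C] [Algebra B C] (I : Ideal B) : Prop :=
  Function.Injective (LinearMap.lTensor C (Submodule.subtype I))

/-- the value of an element of `C ⊗ I` -/
noncomputable def val (I : Ideal B) : C ⊗[B] I →ₗ[C] C :=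
  (TensorProduct.AlgebraTensorModule.rid B C C).toLinearMap ∘ₗ (Submodule.subtype I).baseChange C

theorem val_tmul (I : Ideal B) (c : C) (f : I) :
    val I (c ⊗ₜ[B] f) = algebraMap B C f * c := by
  simp [val, Algebra.smul_def]

theorem test_iff (I : Ideal B) : Test C I ↔ ∀ ξ : C ⊗[B] I, val I ξ = 0 → ξ = 0 := by
  rw [Test, injective_iff_map_eq_zero]
  refine forall_congr' fun ξ => ?_
  have : val I ξ = 0 ↔ (LinearMap.lTensor C (Submodule.subtype I)) ξ = 0 := by
    rw [val, LinearMap.comp_apply, LinearEquiv.coe_coe, LinearEquiv.map_eq_zero_iff]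
    rfl
  rw [this]

variable (hreg : ∀ c : C, algebraMap B C y * c = 0 → c = 0)
  (hflat : ∀ (ι : Type u) [Fintype ι] (f : ι → B) (c : ι → C),
    (∑ i, algebraMap B C (f i) * c i) ∈ Ideal.span {algebraMap B C y} →
    ∃ (k : ℕ) (a : ι → Fin k → B) (d : Fin k → C),
      (∀ i, c i - ∑ j, algebraMap B C (a i j) * d j ∈ Ideal.span {algebraMap B C y}) ∧
      ∀ j, ∑ i, f i * a i j ∈ Ideal.span {y})

include hflat in
theorem lemL (I : Ideal B) (ξ : C ⊗[B] I) (hξ : val I ξ = 0) :
    ∃ (k : ℕ) (d : Fin k → C) (g : Fin k → B) (hg : ∀ j, y * g j ∈ I) (η : C ⊗[B] I),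
      ξ = ∑ j, d j ⊗ₜ[B] (⟨y * g j, hg j⟩ : I) + y • η := by
  classical
  obtain ⟨S, rfl⟩ := TensorProduct.exists_finset ξ
  rw [map_sum] at hξ
  simp only [val_tmul] at hξ
  rw [← Finset.sum_coe_sort] at hξ
  obtain ⟨k, a, d, h1, h2⟩ := hflat S (fun i => (i.1.2 : B)) (fun i => i.1.1) (by
    rw [hξ]; exact Ideal.zero_mem _)
  choose c' hc' using fun i => Ideal.mem_span_singleton'.mp (h1 i)
  choose g hg using fun j => Ideal.mem_span_singleton'.mp (h2 j)
  have hgI : ∀ j, y * g j ∈ I := by
    intro j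
    rw [mul_comm, hg j]
    exact Ideal.sum_mem _ fun i _ => Ideal.mul_mem_right _ _ i.1.2.2
  refine ⟨k, d, g, hgI, ∑ i : S, c' i ⊗ₜ[B] i.1.2, ?_⟩
  rw [← Finset.sum_coe_sort]
  have h3 : ∀ i : S, (i.1.1 : C) ⊗ₜ[B] i.1.2 =
      ∑ j, d j ⊗ₜ[B] (a i j • i.1.2) + y • (c' i ⊗ₜ[B] i.1.2) := by
    intro i
    have h4 : (i.1.1 : C) = ∑ j, a i j • d j + y • c' i := by
      have := hc' i
      simp only [Algebra.smul_def]
      linear_combination -this
    conv_lhs => rw [h4]
    rw [TensorProduct.add_tmul, TensorProduct.sum_tmul, TensorProduct.smul_tmul']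
    congr 1
    refine Finset.sum_congr rfl fun j _ => ?_
    rw [TensorProduct.smul_tmul]
  rw [Finset.sum_congr rfl fun i _ => h3 i, Finset.sum_add_distrib, Finset.smul_sum,
    Finset.sum_comm]
  congr 1
  refine Finset.sum_congr rfl fun j _ => ?_
  rw [← TensorProduct.tmul_sum]
  congr 1
  apply Subtype.ext
  change ((∑ i : S, a i j • i.1.2 : I) : B) = y * g j
  rw [AddSubmonoidClass.coe_finsetSum, mul_comm, hg j]
  refine Finset.sum_congr rfl fun i _ => ?_
  rw [Submodule.coe_smul, smul_eq_mul, mul_comm]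

theorem smul_eq_val (I : Ideal B) (hyI : y ∈ I) (η : C ⊗[B] I) :
    y • η = (val I η) ⊗ₜ[B] (⟨y, hyI⟩ : I) := by
  induction η using TensorProduct.induction_on with
  | zero => simp
  | tmul c f =>
    rw [val_tmul, ← Algebra.smul_def, TensorProduct.smul_tmul, ← TensorProduct.tmul_smul]
    congr 1
    apply Subtype.ext
    change y * (f : B) = (f : B) * y
    ring
  | add a b ha hb => rw [smul_add, ha, hb, map_add, TensorProduct.add_tmul]

include hreg hflat in
theorem test_of_mem (I : Ideal B) (hyI : y ∈ I) : Test C I := by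
  rw [test_iff]
  intro ξ hξ
  obtain ⟨k, d, g, hg, η, rfl⟩ := lemL y hflat I ξ hξ
  have h1 : ∑ j, d j ⊗ₜ[B] (⟨y * g j, hg j⟩ : I) + y • η =
      ((∑ j, g j • d j) + val I η) ⊗ₜ[B] (⟨y, hyI⟩ : I) := by
    rw [smul_eq_val y I hyI, TensorProduct.add_tmul, TensorProduct.sum_tmul]
    congr 1
    refine Finset.sum_congr rfl fun j _ => ?_
    rw [TensorProduct.smul_tmul]
    congr 1
    apply Subtype.ext
    change y * g j = g j * y
    ring
  rw [h1] at hξ ⊢
  rw [val_tmul] at hξ
  rw [hreg _ hξ, TensorProduct.zero_tmul]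

include hreg hflat in
theorem test_of_colon [IsNoetherianRing B] [IsNoetherianRing C] [IsLocalRing C]
    (hyC : algebraMap B C y ∈ maximalIdeal C)
    (I : Ideal B) (hI : ∀ g, y * g ∈ I → g ∈ I) : Test C I := by
  rw [test_iff]
  have hfin : Module.Finite C (C ⊗[B] I) := inferInstance
  have hker : LinearMap.ker (val (C := C) I) = ⊥ := by
    refine Submodule.eq_bot_of_le_smul_of_le_jacobson_bot (maximalIdeal C) _
      (IsNoetherian.noetherian _) ?_ (IsLocalRing.maximalIdeal_le_jacobson _)
    intro ξ hξ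
    rw [LinearMap.mem_ker] at hξ
    obtain ⟨k, d, g, hg, η, rfl⟩ := lemL y hflat I ξ hξ
    have h1 : ∑ j, d j ⊗ₜ[B] (⟨y * g j, hg j⟩ : I) + y • η =
        algebraMap B C y • (∑ j, d j ⊗ₜ[B] (⟨g j, hI _ (hg j)⟩ : I) + η) := by
      rw [algebraMap_smul, smul_add, Finset.smul_sum]
      congr 1
      refine Finset.sum_congr rfl fun j _ => ?_
      rw [← TensorProduct.tmul_smul]
      rfl
    rw [h1] at hξ ⊢
    refine Submodule.smul_mem_smul hyC ?_
    rw [LinearMap.mem_ker]
    apply hreg
    rw [map_smul, smul_eq_mul] at hξ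
    exact hξ
  intro ξ hξ
  have : ξ ∈ LinearMap.ker (val (C := C) I) := hξ
  rw [hker] at this
  exact this

theorem inj_aux {M₂ Q I' K' : Type u} [AddCommGroup M₂] [Module B M₂] [Module.Flat B M₂]
    [AddCommGroup Q] [Module B Q] [AddCommGroup I'] [Module B I'] [AddCommGroup K'] [Module B K']
    (f₂ : M₂ →ₗ[B] C) (hf₂ : Function.Surjective f₂) (J : Ideal B)
    (b : B →ₗ[B] Q) (hb : Function.Exact (Submodule.subtype J) b) (hbs : Function.Surjective b)
    (g : I' →ₗ[B] K') (q : K' →ₗ[B] Q) (hgq : Function.Exact g q) (hqs : Function.Surjective q)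
    (hg : Function.Injective g)
    (hJ : Test C J) : Function.Injective (g.lTensor C) := by
  have hf : Function.Exact (Submodule.subtype (LinearMap.ker f₂)) f₂ :=
    LinearMap.exact_subtype_ker_map f₂
  have h1 : Function.Injective ((Submodule.subtype (LinearMap.ker f₂)).lTensor Q) := by
    refine lTensor_injective_of_exact_of_exact_of_rTensor_injective hb hbs hf hf₂ ?_ ?_
    · rw [← LinearMap.lTensor_inj_iff_rTensor_inj]
      exact hJ
    · exact Module.Flat.lTensor_preserves_injective_linearMap _ (Submodule.injective_subtype _)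
  refine lTensor_injective_of_exact_of_exact_of_rTensor_injective hf hf₂ hgq hqs ?_ ?_
  · rw [← LinearMap.lTensor_inj_iff_rTensor_inj]
    exact h1
  · exact Module.Flat.lTensor_preserves_injective_linearMap _ hg

theorem test_of_devissage (I : Ideal B)
    (hJ : Test C (Submodule.comap (LinearMap.mulLeft B y) I))
    (hK : Test C (I ⊔ Ideal.span {y})) : Test C I := by
  classical
  set J : Ideal B := Submodule.comap (LinearMap.mulLeft B y) I with hJdef
  set K : Ideal B := I ⊔ Ideal.span {y} with hKdef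
  have hIK : I ≤ K := le_sup_left
  have hyK : y ∈ K := Ideal.mem_sup_right (Ideal.mem_span_singleton_self y)
  -- the quotient `K / I`
  let Q := K ⧸ (Submodule.submoduleOf I K)
  let q : K →ₗ[B] Q := Submodule.mkQ _
  let b : B →ₗ[B] Q := q ∘ₗ (LinearMap.toSpanSingleton B K ⟨y, hyK⟩)
  have hbsurj : Function.Surjective b := by
    intro z
    obtain ⟨⟨w, hw⟩, rfl⟩ := Submodule.mkQ_surjective _ z
    obtain ⟨w1, hw1, w2, hw2, rfl⟩ := Submodule.mem_sup.mp hw
    obtain ⟨r, rfl⟩ := Ideal.mem_span_singleton'.mp hw2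
    refine ⟨r, ?_⟩
    change Submodule.Quotient.mk _ = Submodule.Quotient.mk _
    rw [Submodule.Quotient.eq, Submodule.submoduleOf, Submodule.mem_comap]
    change r * y - (w1 + r * y) ∈ I
    have : r * y - (w1 + r * y) = -w1 := by ring
    rw [this]
    exact I.neg_mem hw1
  have hbexact : Function.Exact (Submodule.subtype J) b := by
    intro r
    have h1 : b r = 0 ↔ r * y ∈ I := by
      change (Submodule.Quotient.mk _ : Q) = 0 ↔ _
      rw [Submodule.Quotient.mk_eq_zero, Submodule.submoduleOf, Submodule.mem_comap]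
      rfl
    rw [h1]
    have h2 : r ∈ Set.range (Submodule.subtype J) ↔ r ∈ J := by
      constructor
      · rintro ⟨z, rfl⟩; exact z.2
      · intro h; exact ⟨⟨r, h⟩, rfl⟩
    rw [h2, hJdef, Submodule.mem_comap, LinearMap.mulLeft_apply, mul_comm]
  have hqexact : Function.Exact (Submodule.inclusion hIK) q := by
    intro z
    have h1 : q z = 0 ↔ (z : B) ∈ I := by
      change (Submodule.Quotient.mk _ : Q) = 0 ↔ _
      rw [Submodule.Quotient.mk_eq_zero, Submodule.submoduleOf, Submodule.mem_comap]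
      rfl
    rw [h1]
    constructor
    · intro h; exact ⟨⟨z, h⟩, rfl⟩
    · rintro ⟨w, rfl⟩; exact w.2
  have hqsurj : Function.Surjective q := Submodule.mkQ_surjective _
  have h2 : Function.Injective ((Submodule.inclusion hIK).lTensor C) :=
    inj_aux (M₂ := C →₀ B) (Finsupp.linearCombination B id)
      (fun c => ⟨Finsupp.single c 1, by simp⟩) J b hbexact hbsurj _ q hqexact hqsurj
      (Submodule.inclusion_injective _) hJ
  rw [Test] at hK ⊢
  have h3 : Submodule.subtype I = (Submodule.subtype K) ∘ₗ (Submodule.inclusion hIK) := rfl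
  rw [h3, LinearMap.lTensor_comp]
  exact hK.comp h2

include hreg hflat in
theorem flat_of_quot_aux [IsNoetherianRing B] [IsNoetherianRing C] [IsLocalRing C]
    (hyC : algebraMap B C y ∈ maximalIdeal C) : Module.Flat B C := by
  rw [Module.Flat.iff_lTensor_injective']
  intro I
  change Test C I
  induction I using IsNoetherian.induction with
  | hgt I ih =>
    by_cases hyI : y ∈ I
    · exact test_of_mem y hreg hflat I hyI
    · by_cases hcol : ∀ g, y * g ∈ I → g ∈ I
      · exact test_of_colon y hreg hflat hyC I hcol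
      · push Not at hcol
        obtain ⟨g, hg1, hg2⟩ := hcol
        refine test_of_devissage y I (ih _ ?_) (ih _ ?_)
        · refine lt_of_le_of_ne ?_ ?_
          · intro a ha
            rw [Submodule.mem_comap, LinearMap.mulLeft_apply]
            exact Ideal.mul_mem_left _ _ ha
          · intro h
            apply hg2
            rw [h, Submodule.mem_comap, LinearMap.mulLeft_apply]
            exact hg1
        · refine lt_of_le_of_ne le_sup_left ?_
          intro h
          apply hyI
          rw [h]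
          exact Ideal.mem_sup_right (Ideal.mem_span_singleton_self y)

end

theorem relation_of_flat {B' C' : Type u} [CommRing B'] [CommRing C'] (ψ : B' →+* C')
    (hψ : ψ.Flat) {ι : Type u} [Fintype ι] (f : ι → B') (c : ι → C')
    (h : ∑ i, ψ (f i) * c i = 0) :
    ∃ (k : ℕ) (a : ι → Fin k → B') (d : Fin k → C'),
      (∀ i, c i = ∑ j, ψ (a i j) * d j) ∧ ∀ j, ∑ i, f i * a i j = 0 := by
  let _ := ψ.toAlgebra
  have hψ' : Module.Flat B' C' := hψ
  exact Module.Flat.isTrivialRelation_of_sum_smul_eq_zero (R := B') (M := C') (f := f) (x := c) h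

/-- Flatness modulo a regular element implies flatness. -/
theorem flat_of_quot {B C : Type u} [CommRing B] [CommRing C] [IsNoetherianRing B]
    [IsNoetherianRing C] [IsLocalRing C] (φ : B →+* C) (y : B) (hyC : φ y ∈ maximalIdeal C)
    (hreg : ∀ c : C, φ y * c = 0 → c = 0)
    (ψ : B ⧸ Ideal.span {y} →+* C ⧸ Ideal.span {φ y})
    (hψ : ∀ b, ψ (Ideal.Quotient.mk _ b) = Ideal.Quotient.mk _ (φ b))
    (hflat : ψ.Flat) : φ.Flat := by
  have key : ∀ (ι : Type u) [Fintype ι] (f : ι → B) (c : ι → C),
    (∑ i, φ (f i) * c i) ∈ Ideal.span {φ y} →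
    ∃ (k : ℕ) (a : ι → Fin k → B) (d : Fin k → C),
      (∀ i, c i - ∑ j, φ (a i j) * d j ∈ Ideal.span {φ y}) ∧
      ∀ j, ∑ i, f i * a i j ∈ Ideal.span {y} := by
    intro ι _ f c hfc
    obtain ⟨k, a, d, h3, h4⟩ := relation_of_flat ψ hflat
      (fun i => Ideal.Quotient.mk (Ideal.span {y}) (f i))
      (fun i => Ideal.Quotient.mk (Ideal.span {φ y}) (c i)) (by
        rw [← Ideal.Quotient.eq_zero_iff_mem, map_sum] at hfc
        rw [← hfc]
        refine Finset.sum_congr rfl fun i _ => ?_
        rw [hψ, map_mul])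
    choose a' ha' using fun i j => Ideal.Quotient.mk_surjective (a i j)
    choose d' hd' using fun j => Ideal.Quotient.mk_surjective (d j)
    refine ⟨k, a', d', fun i => ?_, fun j => ?_⟩
    · rw [← Ideal.Quotient.eq_zero_iff_mem, map_sub, map_sum, sub_eq_zero, h3 i]
      refine Finset.sum_congr rfl fun j _ => ?_
      rw [map_mul, ← hψ, ha', hd']
    · rw [← Ideal.Quotient.eq_zero_iff_mem, map_sum, ← h4 j]
      refine Finset.sum_congr rfl fun i _ => ?_
      rw [map_mul, ha']
  let _ := φ.toAlgebra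
  exact flat_of_quot_aux y hreg key hyC

end Pool.Agent.H503R3.FPR
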