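import Pool.Agent.H503R3.FPR.FlatCrit

/-!
# Flatness of the Frobenius map of a regular ring
-/

set_option autoImplicit false

namespace Pool.Agent.H503R3.FPR

open IsLocalRing TensorProduct

universe u

theorem flat_of_isField {B C : Type u} [CommRing B] [CommRing C] (φ : B →+* C) (h : IsField B) :
    φ.Flat := by
  let _ := φ.toAlgebra
  change Module.Flat B C
  let _ := h.toField
  infer_instance

/-- A local homomorphism from a local ring whose maximal ideal is generated by a sequence which is
regular on the target is flat. -/
theorem flat_of_params (n : ℕ) : ∀ (B C : Type u) [CommRing B] [IsLocalRing B]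
    [IsNoetherianRing B] [CommRing C] [IsLocalRing C] [IsNoetherianRing C] (φ : B →+* C)
    (y : Fin n → B), Ideal.span (Set.range y) = maximalIdeal B →
    (∀ i, φ (y i) ∈ maximalIdeal C) →
    (∀ (i : Fin n) (v : C), φ (y i) * v ∈ Ideal.span ((fun j => φ (y j)) '' {j | j < i}) →
      v ∈ Ideal.span ((fun j => φ (y j)) '' {j | j < i})) → φ.Flat := by
  induction n with
  | zero =>
    intro B C _ _ _ _ _ _ φ y hy _ _
    apply flat_of_isField
    rw [isField_iff_maximalIdeal_eq, ← hy]
    simp
  | succ n ih =>
    intro B C _ _ _ _ _ _ φ y hy hyC hreg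
    have hy0 : y 0 ∈ maximalIdeal B := by
      rw [← hy]; exact Ideal.subset_span ⟨0, rfl⟩
    have hneB : Ideal.span {y 0} ≠ ⊤ := by
      intro h
      have : Ideal.span {y 0} ≤ maximalIdeal B := by
        rw [Ideal.span_singleton_le_iff_mem]; exact hy0
      rw [h] at this
      exact (maximalIdeal.isMaximal B).ne_top (top_le_iff.1 this)
    have hneC : Ideal.span {φ (y 0)} ≠ ⊤ := by
      intro h
      have : Ideal.span {φ (y 0)} ≤ maximalIdeal C := by
        rw [Ideal.span_singleton_le_iff_mem]; exact hyC 0
      rw [h] at this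
      exact (maximalIdeal.isMaximal C).ne_top (top_le_iff.1 this)
    have : Nontrivial (B ⧸ Ideal.span {y 0}) := Ideal.Quotient.nontrivial_iff.2 hneB
    have : Nontrivial (C ⧸ Ideal.span {φ (y 0)}) := Ideal.Quotient.nontrivial_iff.2 hneC
    have : IsLocalRing (B ⧸ Ideal.span {y 0}) :=
      IsLocalRing.of_surjective' (Ideal.Quotient.mk _) Ideal.Quotient.mk_surjective
    have : IsLocalRing (C ⧸ Ideal.span {φ (y 0)}) :=
      IsLocalRing.of_surjective' (Ideal.Quotient.mk _) Ideal.Quotient.mk_surjective
    have hle : Ideal.span {y 0} ≤ (Ideal.span {φ (y 0)}).comap φ := by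
      rw [Ideal.span_singleton_le_iff_mem, Ideal.mem_comap]
      exact Ideal.mem_span_singleton_self _
    let ψ : B ⧸ Ideal.span {y 0} →+* C ⧸ Ideal.span {φ (y 0)} := Ideal.quotientMap _ φ hle
    have hψ : ∀ b, ψ (Ideal.Quotient.mk _ b) = Ideal.Quotient.mk _ (φ b) := fun b =>
      Ideal.quotientMap_mk
    refine flat_of_quot φ (y 0) (hyC 0) ?_ ψ hψ ?_
    · intro c hc
      have h1 := hreg 0 c
      have h2 : {j : Fin (n + 1) | j < 0} = ∅ := by
        ext j; simp
      rw [h2, Set.image_empty, Ideal.span_empty] at h1
      exact h1 hc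
    · refine ih _ _ ψ (fun i => Ideal.Quotient.mk _ (y i.succ)) ?_ ?_ ?_
      · rw [← H379R3.map_mk_maximalIdeal, ← hy, Ideal.map_span]
        apply le_antisymm
        · apply Ideal.span_mono
          rintro _ ⟨i, rfl⟩
          exact ⟨y i.succ, ⟨_, rfl⟩, rfl⟩
        · rw [Ideal.span_le]
          rintro _ ⟨_, ⟨i, rfl⟩, rfl⟩
          refine Fin.cases ?_ (fun j => ?_) i
          · have : Ideal.Quotient.mk (Ideal.span {y 0}) (y 0) = 0 :=
              Ideal.Quotient.eq_zero_iff_mem.2 (Ideal.mem_span_singleton_self _)
            rw [this]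
            exact Ideal.zero_mem _
          · exact Ideal.subset_span ⟨j, rfl⟩
      · intro i
        rw [hψ, ← H379R3.map_mk_maximalIdeal]
        exact Ideal.mem_map_of_mem _ (hyC _)
      · intro i v' hv'
        obtain ⟨v, rfl⟩ := Ideal.Quotient.mk_surjective v'
        have hmap : Ideal.span ((fun j : Fin n => ψ (Ideal.Quotient.mk _ (y j.succ))) ''
            {j | j < i}) = (Ideal.span ((fun j => φ (y j)) '' {j | j < i.succ})).map
              (Ideal.Quotient.mk (Ideal.span {φ (y 0)})) := by
          rw [Ideal.map_span]
          apply le_antisymm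
          · apply Ideal.span_mono
            rintro _ ⟨j, hj, rfl⟩
            refine ⟨φ (y j.succ), ⟨j.succ, ?_, rfl⟩, (hψ _).symm⟩
            exact Fin.succ_lt_succ_iff.mpr hj
          · rw [Ideal.span_le]
            rintro _ ⟨_, ⟨j, hj, rfl⟩, rfl⟩
            revert hj
            refine Fin.cases ?_ (fun j => ?_) j
            · intro _
              have : Ideal.Quotient.mk (Ideal.span {φ (y 0)}) (φ (y 0)) = 0 :=
                Ideal.Quotient.eq_zero_iff_mem.2 (Ideal.mem_span_singleton_self _)
              simp only [this]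
              exact Ideal.zero_mem _
            · intro hj
              refine Ideal.subset_span ⟨j, Fin.succ_lt_succ_iff.mp hj, ?_⟩
              exact hψ _
        have h0mem : φ (y 0) ∈ Ideal.span ((fun j => φ (y j)) '' {j | j < i.succ}) :=
          Ideal.subset_span ⟨0, Fin.succ_pos i, rfl⟩
        have hiff : ∀ w : C, Ideal.Quotient.mk (Ideal.span {φ (y 0)}) w ∈
            (Ideal.span ((fun j => φ (y j)) '' {j | j < i.succ})).map
              (Ideal.Quotient.mk (Ideal.span {φ (y 0)})) ↔
            w ∈ Ideal.span ((fun j => φ (y j)) '' {j | j < i.succ}) := by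
          intro w
          rw [← Ideal.mem_comap, Ideal.comap_map_of_surjective _ Ideal.Quotient.mk_surjective,
            ← RingHom.ker_eq_comap_bot, Ideal.mk_ker, sup_eq_left.mpr]
          rw [Ideal.span_singleton_le_iff_mem]
          exact h0mem
        rw [hmap, hψ, ← map_mul, hiff] at hv'
        rw [hmap, hiff]
        exact hreg _ _ hv'

theorem exists_fin_gens {B : Type u} [CommRing B] (I : Ideal B) (hI : I.FG) (n : ℕ)
    (hn : I.spanFinrank ≤ n) : ∃ y : Fin n → B, Ideal.span (Set.range y) = I := by
  classical
  set s := I.generators with hs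
  have hsfin : s.Finite := Submodule.FG.finite_generators hI
  have hspan : Ideal.span s = I := Submodule.span_generators _
  have hcard : hsfin.toFinset.card ≤ n := by
    rw [← Set.ncard_eq_toFinset_card _ hsfin, Submodule.FG.generators_ncard hI]
    exact hn
  -- list the elements
  let l := hsfin.toFinset.toList
  have hl : l.length ≤ n := by rw [Finset.length_toList]; exact hcard
  refine ⟨fun i => l.getD i 0, ?_⟩
  rw [← hspan]
  apply le_antisymm
  · rw [Ideal.span_le]
    rintro _ ⟨i, rfl⟩
    change l.getD i 0 ∈ Ideal.span s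
    by_cases hi : (i : ℕ) < l.length
    · rw [List.getD_eq_getElem _ _ hi]
      apply Ideal.subset_span
      have : l[(i : ℕ)] ∈ l := List.getElem_mem hi
      rw [Finset.mem_toList, Set.Finite.mem_toFinset] at this
      exact this
    · rw [List.getD_eq_default _ _ (not_lt.mp hi)]
      exact Ideal.zero_mem _
  · apply Ideal.span_mono
    intro x hx
    have hx' : x ∈ l := by
      rw [Finset.mem_toList, Set.Finite.mem_toFinset]; exact hx
    obtain ⟨k, hk, rfl⟩ := List.getElem_of_mem hx'
    exact ⟨⟨k, lt_of_lt_of_le hk hl⟩, List.getD_eq_getElem _ _ hk⟩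

theorem exists_params (B : Type u) [CommRing B] [IsRegularLocalRing B] (n : ℕ)
    (hn : ringKrullDim B = n) : ∃ y : Fin n → B, Ideal.span (Set.range y) = maximalIdeal B := by
  refine exists_fin_gens _ (Ideal.fg_of_isNoetherianRing _) n ?_
  have h := IsRegularLocalRing.spanFinrank_maximalIdeal (R := B)
  rw [hn] at h
  exact le_of_eq (by exact_mod_cast h)

variable (p : ℕ) [Fact p.Prime]

/-- The iterated Frobenius of a regular local ring is flat. -/
theorem frob_flat_local (B : Type u) [CommRing B] [CharP B p] [IsRegularLocalRing B] (e : ℕ) :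
    (iterateFrobenius B p e).Flat := by
  classical
  -- a regular system of parameters
  obtain ⟨n, hn⟩ := H379R3.exists_dim_eq (B := B)
  obtain ⟨y, hy⟩ := exists_params B n hn
  refine flat_of_params n B B (iterateFrobenius B p e) y hy ?_ ?_
  · intro i
    rw [iterateFrobenius_def]
    exact Ideal.pow_mem_of_mem _ (y_mem y hy i) _ (Nat.pos_of_ne_zero
      (pow_ne_zero _ (Fact.out : p.Prime).ne_zero))
  · intro i v hv
    have h1 : Ideal.span ((fun j => (iterateFrobenius B p e) (y j)) '' {j | j < i}) =
        powIdeal y (Finset.univ.filter (· < i)) (fun _ => p ^ e) := by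
      rw [powIdeal]
      congr 1
      ext w
      simp [iterateFrobenius_def]
    rw [h1] at hv ⊢
    rw [iterateFrobenius_def] at hv
    -- divide by `y i` repeatedly
    have key : ∀ (k : ℕ) (w : B), y i ^ k * w ∈
        powIdeal y (Finset.univ.filter (· < i)) (fun _ => p ^ e) →
        w ∈ powIdeal y (Finset.univ.filter (· < i)) (fun _ => p ^ e) := by
      intro k
      induction k with
      | zero => intro w hw; simpa using hw
      | succ k ih =>
        intro w hw
        apply ih
        refine colon hn y hy _ _ _ i _ ?_ le_rfl ?_ ?_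
        · intro j _
          exact Nat.pos_of_ne_zero (pow_ne_zero _ (Fact.out : p.Prime).ne_zero)
        · simp
        · rw [← mul_assoc, ← pow_succ']; exact hw
    exact key _ _ hv

/-- The iterated Frobenius of a regular ring is flat. -/
theorem frob_flat (R : Type u) [CommRing R] [CharP R p] [IsRegularRing R] (e : ℕ) :
    (iterateFrobenius R p e).Flat := by
  apply RingHom.Flat.ofLocalizationPrime
  intro P hP
  have hcomap : P.comap (iterateFrobenius R p e) = P := by
    ext x
    rw [Ideal.mem_comap, iterateFrobenius_def]
    exact hP.pow_mem_iff_mem _ (Nat.pos_of_ne_zero (pow_ne_zero _ (Fact.out : p.Prime).ne_zero))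
  have key : ∀ (I : Ideal R) [I.IsPrime] (hI : I = P.comap (iterateFrobenius R p e)), I = P →
      (Localization.localRingHom I P (iterateFrobenius R p e) hI).Flat := by
    intro I _ hI hIP
    subst hIP
    have hchar : CharP (Localization.AtPrime I) p := by
      have h0 : (p : Localization.AtPrime I) = 0 := by
        rw [← map_natCast (algebraMap R (Localization.AtPrime I)), CharP.cast_eq_zero, map_zero]
      exact (CharP.charP_iff_prime_eq_zero (Fact.out : p.Prime)).mpr h0
    have h1 : Localization.localRingHom I I (iterateFrobenius R p e) hI =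
        iterateFrobenius (Localization.AtPrime I) p e := by
      refine Localization.localRingHom_unique _ _ _ hI ?_
      intro x
      rw [iterateFrobenius_def, iterateFrobenius_def, map_pow]
    rw [h1]
    have : IsRegularLocalRing (Localization.AtPrime I) :=
      IsRegularRing.isRegularLocalRing_localization I
    exact frob_flat_local p _ e
  exact key _ rfl hcomap

end Pool.Agent.H503R3.FPR
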