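import Pool.Agent.H503R3.FPR.Frob

/-!
# Local computations
-/

set_option autoImplicit false

namespace Pool.Agent.H503R3.FPR

open IsLocalRing TensorProduct

universe u

theorem add_le_ringKrullDim {A : Type u} [CommRing A] (p : Ideal A) [hp : p.IsPrime] (r s : ℕ)
    (hr : (r : ℕ∞) ≤ p.height) (hs : (s : WithBot ℕ∞) ≤ ringKrullDim (A ⧸ p)) :
    ((r + s : ℕ) : WithBot ℕ∞) ≤ ringKrullDim A := by
  have hr' : (r : ℕ∞) ≤ Order.height (⟨p, hp⟩ : PrimeSpectrum A) := by
    rw [← PrimeSpectrum.height_eq_orderHeight]; exact hr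
  obtain ⟨l, hl, hlen⟩ := Order.exists_series_of_le_height (⟨p, hp⟩ : PrimeSpectrum A) hr'
  obtain ⟨m, hm⟩ := Order.le_krullDim_iff.mp hs
  let g : PrimeSpectrum (A ⧸ p) → PrimeSpectrum A := PrimeSpectrum.comap (Ideal.Quotient.mk p)
  have hg : StrictMono g := by
    intro a b hab
    have h1 := Ideal.comap_injective_of_surjective (Ideal.Quotient.mk p)
      Ideal.Quotient.mk_surjective
    refine lt_of_le_of_ne (Ideal.comap_mono hab.le) ?_
    intro h
    apply hab.ne
    apply PrimeSpectrum.ext
    exact h1 (congrArg PrimeSpectrum.asIdeal h)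
  let m' : LTSeries (PrimeSpectrum A) := m.map g hg
  have hhead : (⟨p, hp⟩ : PrimeSpectrum A) ≤ m'.head := by
    change p ≤ (m.head.asIdeal).comap (Ideal.Quotient.mk p)
    intro x hx
    rw [Ideal.mem_comap, Ideal.Quotient.eq_zero_iff_mem.mpr hx]
    exact Ideal.zero_mem _
  rcases hhead.eq_or_lt with h | h
  · have hc : l.last = m'.head := by rw [hl]; exact h
    have := Order.LTSeries.length_le_krullDim (l.smash m' hc)
    refine le_trans (le_of_eq ?_) this
    rw [RelSeries.smash_length, hlen]
    change ((r + s : ℕ) : WithBot ℕ∞) = ((r + m.length : ℕ) : WithBot ℕ∞)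
    rw [hm]
  · have hc : l.last < m'.head := by rw [hl]; exact h
    have := Order.LTSeries.length_le_krullDim (l.append m' hc)
    refine le_trans ?_ this
    rw [RelSeries.append_length, hlen]
    change ((r + s : ℕ) : WithBot ℕ∞) ≤ ((r + m.length + 1 : ℕ) : WithBot ℕ∞)
    rw [hm]
    exact_mod_cast Nat.le_succ _

section

variable (p : ℕ) [Fact p.Prime] {L : Type u} [CommRing L] [CharP L p] [IsRegularLocalRing L]
  {n : ℕ} (hd : ringKrullDim L = n) (y : Fin n → L)
  (hy : Ideal.span (Set.range y) = maximalIdeal L)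

omit [IsRegularLocalRing L] in
theorem map_frob_span (y : Fin n → L) (e : ℕ) :
    (Ideal.span (Set.range y)).map (iterateFrobenius L p e) =
      powIdeal y Finset.univ (fun _ => p ^ e) := by
  rw [Ideal.map_span, powIdeal]
  congr 1
  ext w
  simp [iterateFrobenius_def]

include hd hy in
/-- A form with a unit coefficient is not in the Frobenius power of the maximal ideal. -/
theorem form_notMem (e k : ℕ) (hk : k < p ^ e) (F : MvPolynomial (Fin n) L)
    (hF : F.IsHomogeneous k) (α : Fin n →₀ ℕ) (hα : IsUnit (F.coeff α)) :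
    MvPolynomial.eval y F ∉ (maximalIdeal L).map (iterateFrobenius L p e) := by
  classical
  rw [← hy, map_frob_span]
  intro hmem
  set q := p ^ e with hq
  have hα0 : F.coeff α ≠ 0 := fun h => by
    rw [h, isUnit_zero_iff] at hα
    exact zero_ne_one hα
  have hdeg : ∀ β, F.coeff β ≠ 0 → ∑ i, β i = k := by
    intro β hβ
    have := hF hβ
    rw [← this]
    simp [Finsupp.weight_apply, Finsupp.sum_fintype]
  have hle : ∀ i, α i ≤ q - 1 := by
    intro i
    have h1 := hdeg α hα0
    have h2 : α i ≤ ∑ i, α i := Finset.single_le_sum (f := fun i => α i) (fun _ _ => Nat.zero_le _)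
      (Finset.mem_univ i)
    omega
  -- multiply by the complementary monomial
  have h1 : (∏ i, y i ^ (q - 1 - α i)) * MvPolynomial.eval y F ∈
      powIdeal y Finset.univ (fun _ => q) := Ideal.mul_mem_left _ _ hmem
  have h2 : (∏ i, y i ^ (q - 1 - α i)) * MvPolynomial.eval y F -
      F.coeff α * ∏ i, y i ^ (q - 1) ∈ powIdeal y Finset.univ (fun _ => q) := by
    rw [MvPolynomial.eval_eq', Finset.mul_sum]
    have hαmem : α ∈ F.support := MvPolynomial.mem_support_iff.mpr hα0
    rw [← Finset.add_sum_erase _ _ hαmem]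
    have h3 : (∏ i, y i ^ (q - 1 - α i)) * (F.coeff α * ∏ i, y i ^ α i) =
        F.coeff α * ∏ i, y i ^ (q - 1) := by
      rw [mul_left_comm, ← Finset.prod_mul_distrib]
      congr 1
      refine Finset.prod_congr rfl fun i _ => ?_
      rw [← pow_add]
      congr 1
      have := hle i
      omega
    rw [h3, add_sub_cancel_left]
    refine Ideal.sum_mem _ fun β hβ => ?_
    obtain ⟨hβα, hβs⟩ := Finset.mem_erase.mp hβ
    have h4 := hdeg β (MvPolynomial.mem_support_iff.mp hβs)
    have h5 := hdeg α hα0
    obtain ⟨i, hi⟩ : ∃ i, α i < β i := by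
      by_contra hcon
      push Not at hcon
      apply hβα
      ext i
      have := (Finset.sum_eq_sum_iff_of_le (s := Finset.univ) (f := fun i => β i)
        (g := fun i => α i) (fun i _ => hcon i)).mp (by rw [h4, h5]) i (Finset.mem_univ i)
      exact this
    have h6 : (∏ j, y j ^ (q - 1 - α j)) * (F.coeff β * ∏ j, y j ^ β j) =
        (F.coeff β * ((∏ j ∈ Finset.univ.erase i, y j ^ (q - 1 - α j)) *
          ∏ j ∈ Finset.univ.erase i, y j ^ β j)) * (y i ^ (q - 1 - α i) * y i ^ β i) := by
      rw [← Finset.mul_prod_erase _ _ (Finset.mem_univ i),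
        ← Finset.mul_prod_erase (f := fun j => y j ^ β j) _ (Finset.mem_univ i)]
      ring
    rw [h6]
    refine Ideal.mul_mem_left _ _ ?_
    rw [← pow_add]
    have h7 : q ≤ q - 1 - α i + β i := by
      have := hle i
      omega
    refine Ideal.mem_of_dvd _ (pow_dvd_pow _ h7) ?_
    exact pow_mem_powIdeal y (fun _ => q) (Finset.mem_univ i)
  have h3 : F.coeff α * ∏ i, y i ^ (q - 1) ∈ powIdeal y Finset.univ (fun _ => q) := by
    have := Ideal.sub_mem _ h1 h2
    rwa [sub_sub_cancel] at this
  have h4 := (Ideal.unit_mul_mem_iff_mem _ hα).mp h3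
  exact prod_notMem hd y hy _ (fun _ => q) (fun _ => Nat.pos_of_ne_zero
    (pow_ne_zero _ (Fact.out : p.Prime).ne_zero)) le_rfl h4

end

section

variable (p : ℕ) [Fact p.Prime] {L : Type u} [CommRing L] [CharP L p] [IsRegularLocalRing L]

/-- The local statement: `K` is an ideal with regular quotient, generated by `ht K` elements. -/
theorem local_notMem {r : ℕ} (x : Fin r → L) (K : Ideal L) [K.IsPrime]
    (hx : Ideal.span (Set.range x) = K) (hht : (r : ℕ∞) ≤ K.height)
    [IsRegularLocalRing (L ⧸ K)] (e k : ℕ) (hk : k < p ^ e) (F : MvPolynomial (Fin r) L)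
    (hF : F.IsHomogeneous k) (α : Fin r →₀ ℕ) (hα : IsUnit (F.coeff α)) :
    MvPolynomial.eval x F ∉ (maximalIdeal L).map (iterateFrobenius L p e) := by
  classical
  obtain ⟨n, hn⟩ := H379R3.exists_dim_eq (B := L)
  obtain ⟨s, hs⟩ := H379R3.exists_dim_eq (B := L ⧸ K)
  obtain ⟨z', hz'⟩ := exists_params (L ⧸ K) s hs
  choose z hz using fun i => Ideal.Quotient.mk_surjective (z' i)
  have hKm : K ≤ maximalIdeal L := IsLocalRing.le_maximalIdeal (Ideal.IsPrime.ne_top inferInstance)
  set y : Fin (r + s) → L := Fin.append x z with hy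
  have hyspan : Ideal.span (Set.range y) = maximalIdeal L := by
    apply le_antisymm
    · rw [Ideal.span_le]
      rintro _ ⟨i, rfl⟩
      refine Fin.addCases (fun i => ?_) (fun i => ?_) i
      · rw [hy, Fin.append_left]
        exact hKm (hx ▸ Ideal.subset_span ⟨i, rfl⟩)
      · rw [hy, Fin.append_right]
        have h1 : Ideal.Quotient.mk K (z i) ∈ maximalIdeal (L ⧸ K) := by
          rw [hz, ← hz']; exact Ideal.subset_span ⟨i, rfl⟩
        by_contra h2
        have h3 : IsUnit (z i) := by
          by_contra h4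
          exact h2 ((IsLocalRing.mem_maximalIdeal _).2 h4)
        exact (IsLocalRing.mem_maximalIdeal _).1 h1 (h3.map _)
    · intro w hw
      have h1 : Ideal.Quotient.mk K w ∈ (Ideal.span (Set.range z)).map (Ideal.Quotient.mk K) := by
        rw [Ideal.map_span, ← Set.range_comp]
        have : (Ideal.Quotient.mk K) ∘ z = z' := funext hz
        rw [this, hz', ← H379R3.map_mk_maximalIdeal]
        exact Ideal.mem_map_of_mem _ hw
      obtain ⟨w', hw', hww'⟩ := (Ideal.mem_map_iff_of_surjective _
        Ideal.Quotient.mk_surjective).1 h1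
      have h2 : w - w' ∈ K := Ideal.Quotient.eq.1 hww'.symm
      have h3 : w = w' + (w - w') := by ring
      rw [h3]
      refine Ideal.add_mem _ ?_ ?_
      · refine Ideal.span_mono ?_ hw'
        rintro _ ⟨i, rfl⟩
        exact ⟨Fin.natAdd r i, by rw [hy, Fin.append_right]⟩
      · rw [← hx] at h2
        refine Ideal.span_mono ?_ h2
        rintro _ ⟨i, rfl⟩
        exact ⟨Fin.castAdd s i, by rw [hy, Fin.append_left]⟩
  have hnrs : n = r + s := by
    apply le_antisymm
    · have h1 := ringKrullDim_le_spanFinrank_maximalIdeal L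
      rw [hn, ← hyspan] at h1
      have h2 : (Ideal.span (Set.range y)).spanFinrank ≤ r + s := by
        refine (Submodule.spanFinrank_span_le_ncard_of_finite (Set.toFinite _)).trans ?_
        rw [← Set.image_univ]
        refine (Set.ncard_image_le (Set.toFinite _)).trans ?_
        rw [Set.ncard_univ, Nat.card_eq_fintype_card, Fintype.card_fin]
      have h3 : (n : WithBot ℕ∞) ≤ ((r + s : ℕ) : WithBot ℕ∞) := h1.trans (by exact_mod_cast h2)
      exact_mod_cast h3
    · have h1 := add_le_ringKrullDim K r s hht (le_of_eq hs.symm)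
      rw [hn] at h1
      exact_mod_cast h1
  subst hnrs
  have hinj : Function.Injective (Fin.castAdd s : Fin r → Fin (r + s)) := Fin.castAdd_injective _ _
  have heval : MvPolynomial.eval x F = MvPolynomial.eval y
      (MvPolynomial.rename (Fin.castAdd s) F) := by
    rw [MvPolynomial.eval_rename]
    congr 2
    funext i
    rw [Function.comp_apply, hy, Fin.append_left]
  rw [heval]
  refine form_notMem p hn y hyspan e k hk _ (hF.rename_isHomogeneous)
    (α.mapDomain (Fin.castAdd s)) ?_
  rwa [MvPolynomial.coeff_rename_mapDomain _ hinj]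

end

end Pool.Agent.H503R3.FPR
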