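import Pool.Agent.H379R3.Reg

/-!
# Powers of a regular system of parameters
-/

set_option autoImplicit false

namespace Pool.Agent.H503R3.FPR

open IsLocalRing

universe u

/-- the ideal generated by the powers `y j ^ t j`, `j ∈ S` -/
def powIdeal {B : Type u} [CommRing B] {n : ℕ} (y : Fin n → B) (S : Finset (Fin n))
    (t : Fin n → ℕ) : Ideal B := Ideal.span ((fun j => y j ^ t j) '' (S : Set (Fin n)))

section

variable {B : Type u} [CommRing B] {n : ℕ} (y : Fin n → B)

theorem powIdeal_mono_set {S S' : Finset (Fin n)} (h : S ⊆ S') (t : Fin n → ℕ) :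
    powIdeal y S t ≤ powIdeal y S' t :=
  Ideal.span_mono (Set.image_mono (by exact_mod_cast h))

theorem pow_mem_powIdeal {S : Finset (Fin n)} (t : Fin n → ℕ) {j : Fin n} (hj : j ∈ S) :
    y j ^ t j ∈ powIdeal y S t := Ideal.subset_span ⟨j, by exact_mod_cast hj, rfl⟩

theorem powIdeal_erase {S : Finset (Fin n)} (t : Fin n → ℕ) {j : Fin n} (hj : j ∈ S) (a : ℕ) :
    powIdeal y S (Function.update t j a) = powIdeal y (S.erase j) t ⊔ Ideal.span {y j ^ a} := by
  apply le_antisymm
  · rw [powIdeal, Ideal.span_le]
    rintro _ ⟨i, hi, rfl⟩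
    by_cases hij : i = j
    · subst hij
      simp only [Function.update_self]
      exact Ideal.mem_sup_right (Ideal.mem_span_singleton_self _)
    · simp only [Function.update_of_ne hij]
      exact Ideal.mem_sup_left (pow_mem_powIdeal y t (Finset.mem_erase.mpr ⟨hij, by
        exact_mod_cast hi⟩))
  · rw [sup_le_iff]
    constructor
    · rw [powIdeal, Ideal.span_le]
      rintro _ ⟨i, hi, rfl⟩
      have hi' := Finset.mem_erase.mp (by exact_mod_cast hi : i ∈ S.erase j)
      have := pow_mem_powIdeal y (Function.update t j a) hi'.2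
      rwa [Function.update_of_ne hi'.1] at this
    · rw [Ideal.span_singleton_le_iff_mem]
      have := pow_mem_powIdeal y (Function.update t j a) hj
      rwa [Function.update_self] at this

theorem powIdeal_eq_erase {S : Finset (Fin n)} (t : Fin n → ℕ) {j : Fin n} (hj : j ∈ S) :
    powIdeal y S t = powIdeal y (S.erase j) t ⊔ Ideal.span {y j ^ t j} := by
  rw [← powIdeal_erase y t hj, Function.update_eq_self]

end

section

variable {B : Type u} [CommRing B] [IsRegularLocalRing B] {n : ℕ} (hd : ringKrullDim B = n)
  (y : Fin n → B) (hy : Ideal.span (Set.range y) = maximalIdeal B)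

include hy in
theorem y_mem (i : Fin n) : y i ∈ maximalIdeal B := by
  rw [← hy]; exact Ideal.subset_span ⟨i, rfl⟩

include hy in
theorem maximalIdeal_quot (J : Ideal B) [IsLocalRing (B ⧸ J)] (S : Finset (Fin n))
    (hS : ∀ i ∈ S, y i ∈ J) :
    (maximalIdeal (B ⧸ J)).spanFinrank ≤ n - S.card := by
  classical
  have h1 : maximalIdeal (B ⧸ J) =
      Ideal.span ((fun i => Ideal.Quotient.mk J (y i)) '' ((Sᶜ : Finset (Fin n)) : Set (Fin n))) := by
    rw [← H379R3.map_mk_maximalIdeal, ← hy, Ideal.map_span]
    apply le_antisymm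
    · rw [Ideal.span_le]
      rintro _ ⟨_, ⟨i, rfl⟩, rfl⟩
      by_cases h : i ∈ S
      · rw [Ideal.Quotient.eq_zero_iff_mem.mpr (hS i h)]
        exact Ideal.zero_mem _
      · refine Ideal.subset_span ⟨i, ?_, rfl⟩
        simpa using h
    · apply Ideal.span_mono
      rintro _ ⟨i, _, rfl⟩
      exact ⟨y i, ⟨i, rfl⟩, rfl⟩
  rw [h1]
  refine (Submodule.spanFinrank_span_le_ncard_of_finite (Set.toFinite _)).trans ?_
  refine (Set.ncard_image_le (Set.toFinite _)).trans ?_
  rw [Set.ncard_coe_finset, Finset.card_compl, Fintype.card_fin]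

include hd hy in
theorem span_prime (S : Finset (Fin n)) : (Ideal.span (y '' (S : Set (Fin n)))).IsPrime ∧
    ∀ i ∉ S, y i ∉ Ideal.span (y '' (S : Set (Fin n))) := by
  classical
  set J := Ideal.span (y '' (S : Set (Fin n))) with hJ
  have hJm : J ≤ maximalIdeal B := by
    rw [hJ, Ideal.span_le]
    rintro _ ⟨i, _, rfl⟩
    exact y_mem y hy i
  have hne : J ≠ ⊤ := fun h => (maximalIdeal.isMaximal B).ne_top (top_le_iff.1 (h ▸ hJm))
  have : Nontrivial (B ⧸ J) := Ideal.Quotient.nontrivial_iff.2 hne
  have hloc : IsLocalRing (B ⧸ J) :=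
    IsLocalRing.of_surjective' (Ideal.Quotient.mk _) Ideal.Quotient.mk_surjective
  have hSJ : ∀ i ∈ S, y i ∈ J := fun i hi => Ideal.subset_span ⟨i, by exact_mod_cast hi, rfl⟩
  have hcard : S.card ≤ n := by simpa using Finset.card_le_univ S
  have hdim : ((n : ℕ) : WithBot ℕ∞) ≤ ringKrullDim (B ⧸ J) + (S.card : ℕ) := by
    have h1 := ringKrullDim_le_ringKrullDim_quotient_add_card (R := B) (S.image y) (by
      intro x hx
      rw [Finset.coe_image] at hx
      obtain ⟨i, _, rfl⟩ := hx
      rw [SetLike.mem_coe, IsLocalRing.ringJacobson_eq_maximalIdeal]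
      exact y_mem y hy i)
    rw [hd, Finset.coe_image, ← hJ] at h1
    refine h1.trans ?_
    have h2 : (((S.image y).card : ℕ) : WithBot ℕ∞) ≤ ((S.card : ℕ) : WithBot ℕ∞) := by
      exact_mod_cast Finset.card_image_le
    gcongr
  have hkey : ∀ T : Finset (Fin n), (∀ i ∈ T, y i ∈ J) → T.card ≤ S.card ∧
      (T.card = S.card → IsRegularLocalRing (B ⧸ J)) := by
    intro T hT
    have h1 := maximalIdeal_quot y hy J T hT
    have h2 := ringKrullDim_le_spanFinrank_maximalIdeal (B ⧸ J)
    have hTn : T.card ≤ n := by simpa using Finset.card_le_univ T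
    have h3 : ringKrullDim (B ⧸ J) ≤ ((n - T.card : ℕ) : WithBot ℕ∞) := by
      refine h2.trans ?_
      exact_mod_cast h1
    have h4 : ((n : ℕ) : WithBot ℕ∞) ≤ ((n - T.card : ℕ) : WithBot ℕ∞) + (S.card : ℕ) := by
      refine hdim.trans ?_
      gcongr
    have h5 : n ≤ n - T.card + S.card := by exact_mod_cast h4
    refine ⟨by omega, fun hTS => ?_⟩
    apply IsRegularLocalRing.of_spanFinrank_maximalIdeal_le
    have h6 : ((n - T.card : ℕ) : WithBot ℕ∞) ≤ ringKrullDim (B ⧸ J) := by
      have h7 : (((n - T.card) + S.card : ℕ) : WithBot ℕ∞) ≤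
          ringKrullDim (B ⧸ J) + (S.card : ℕ) := by
        have : n - T.card + S.card = n := by omega
        rw [this]; exact hdim
      push_cast at h7
      exact ENat.WithBot.add_le_add_natCast_right_iff.mp h7
    refine le_trans ?_ h6
    exact_mod_cast h1
  have hreg := (hkey S hSJ).2 rfl
  have hdom := H379R3.isDomain (B ⧸ J)
  refine ⟨(Ideal.Quotient.isDomain_iff_prime _).1 hdom, fun i hi hiJ => ?_⟩
  have h1 := (hkey (insert i S) (by
    intro j hj
    rcases Finset.mem_insert.mp hj with rfl | hj
    · exact hiJ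
    · exact hSJ j hj)).1
  rw [Finset.card_insert_of_notMem hi] at h1
  omega

include hd hy in
/-- The elements `y i` are non zero divisors modulo powers of the others. -/
theorem colon (N : ℕ) : ∀ (S : Finset (Fin n)) (t : Fin n → ℕ) (i : Fin n) (v : B),
    (∀ j ∈ S, 1 ≤ t j) → ∑ j ∈ S, t j ≤ N → i ∉ S → y i * v ∈ powIdeal y S t →
    v ∈ powIdeal y S t := by
  classical
  induction N using Nat.strong_induction_on with
  | _ N ih =>
    intro S t i v ht hN hi hv
    by_cases hall : ∀ j ∈ S, t j = 1
    · have h1 : powIdeal y S t = Ideal.span (y '' (S : Set (Fin n))) := by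
        rw [powIdeal]
        congr 1
        apply Set.image_congr
        intro j hj
        rw [hall j (by exact_mod_cast hj), pow_one]
      rw [h1] at hv ⊢
      obtain ⟨hp, hne⟩ := span_prime hd y hy S
      exact (hp.mem_or_mem hv).resolve_left (hne i hi)
    · push Not at hall
      obtain ⟨j, hjS, hj1⟩ := hall
      have hj2 : 2 ≤ t j := by have := ht j hjS; omega
      have hij : i ≠ j := fun h => hi (h ▸ hjS)
      have hsumS : ∑ k ∈ S, t k = t j + ∑ k ∈ S.erase j, t k := (Finset.add_sum_erase _ _ hjS).symm
      have hsumU : ∀ a, ∑ k ∈ S, Function.update t j a k = a + ∑ k ∈ S.erase j, t k := by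
        intro a
        rw [← Finset.add_sum_erase _ _ hjS, Function.update_self]
        congr 1
        refine Finset.sum_congr rfl fun k hk => ?_
        rw [Function.update_of_ne (Finset.mem_erase.mp hk).1]
      -- first induction
      have hle1 : powIdeal y S t ≤ powIdeal y S (Function.update t j 1) := by
        rw [powIdeal_erase y t hjS, powIdeal_eq_erase y t hjS, pow_one]
        refine sup_le_sup_left ?_ _
        rw [Ideal.span_singleton_le_iff_mem, Ideal.mem_span_singleton]
        exact dvd_pow_self _ (by omega)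
      have h1 : v ∈ powIdeal y S (Function.update t j 1) := by
        refine ih (∑ k ∈ S, Function.update t j 1 k) ?_ S _ i v ?_ le_rfl hi (hle1 hv)
        · rw [hsumU]; omega
        · intro k hk
          by_cases hkj : k = j
          · subst hkj; rw [Function.update_self]
          · rw [Function.update_of_ne hkj]; exact ht k hk
      rw [powIdeal_erase y t hjS, pow_one] at h1
      obtain ⟨w, hw, z, hz, rfl⟩ := Submodule.mem_sup.mp h1
      obtain ⟨v', rfl⟩ := Ideal.mem_span_singleton'.mp hz
      have hle2 : powIdeal y (S.erase j) t ≤ powIdeal y S t :=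
        powIdeal_mono_set y (Finset.erase_subset _ _) t
      have h2 : y i * (v' * y j) ∈ powIdeal y S t := by
        have h3 : y i * (v' * y j) = y i * (w + v' * y j) - y i * w := by ring
        rw [h3]
        exact Ideal.sub_mem _ hv (Ideal.mul_mem_left _ _ (hle2 hw))
      rw [powIdeal_eq_erase y t hjS] at h2
      obtain ⟨w', hw', z', hz', hsum⟩ := Submodule.mem_sup.mp h2
      obtain ⟨v'', rfl⟩ := Ideal.mem_span_singleton'.mp hz'
      have hpow : y j ^ t j = y j * y j ^ (t j - 1) := by
        rw [← pow_succ']; congr 1; omega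
      have h3 : y j * (y i * v' - v'' * y j ^ (t j - 1)) ∈ powIdeal y (S.erase j) t := by
        have : y j * (y i * v' - v'' * y j ^ (t j - 1)) = w' := by
          rw [hpow] at hsum
          linear_combination -hsum
        rw [this]; exact hw'
      have h4 : y i * v' - v'' * y j ^ (t j - 1) ∈ powIdeal y (S.erase j) t := by
        refine ih (∑ k ∈ S.erase j, t k) ?_ _ t j _ ?_ le_rfl (Finset.notMem_erase _ _) h3
        · omega
        · intro k hk; exact ht k (Finset.mem_of_mem_erase hk)
      have h5 : y i * v' ∈ powIdeal y S (Function.update t j (t j - 1)) := by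
        rw [powIdeal_erase y t hjS]
        have : y i * v' = (y i * v' - v'' * y j ^ (t j - 1)) + v'' * y j ^ (t j - 1) := by ring
        rw [this]
        exact Ideal.add_mem _ (Ideal.mem_sup_left h4)
          (Ideal.mem_sup_right (Ideal.mul_mem_left _ _ (Ideal.mem_span_singleton_self _)))
      have h6 : v' ∈ powIdeal y S (Function.update t j (t j - 1)) := by
        refine ih (∑ k ∈ S, Function.update t j (t j - 1) k) ?_ S _ i v' ?_ le_rfl hi h5
        · rw [hsumU]; omega
        · intro k hk
          by_cases hkj : k = j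
          · subst hkj; rw [Function.update_self]; omega
          · rw [Function.update_of_ne hkj]; exact ht k hk
      rw [powIdeal_erase y t hjS] at h6
      obtain ⟨a, ha, b, hb, rfl⟩ := Submodule.mem_sup.mp h6
      obtain ⟨b', rfl⟩ := Ideal.mem_span_singleton'.mp hb
      refine Ideal.add_mem _ (hle2 hw) ?_
      have h7 : (a + b' * y j ^ (t j - 1)) * y j = y j * a + b' * y j ^ t j := by
        rw [hpow]; ring
      rw [h7]
      exact Ideal.add_mem _ (Ideal.mul_mem_left _ _ (hle2 ha))
        (Ideal.mul_mem_left _ _ (pow_mem_powIdeal y t hjS))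

include hd hy in
/-- The monomial property. -/
theorem prod_notMem (N : ℕ) : ∀ (t : Fin n → ℕ), (∀ j, 1 ≤ t j) → ∑ j, t j ≤ N →
    ∏ j, y j ^ (t j - 1) ∉ powIdeal y Finset.univ t := by
  classical
  induction N using Nat.strong_induction_on with
  | _ N ih =>
    intro t ht hN hmem
    by_cases hall : ∀ j, t j = 1
    · have h1 : ∏ j, y j ^ (t j - 1) = 1 := by
        refine Finset.prod_eq_one fun j _ => ?_
        rw [hall j, Nat.sub_self, pow_zero]
      rw [h1] at hmem
      have h2 : powIdeal y Finset.univ t ≤ maximalIdeal B := by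
        rw [powIdeal, Ideal.span_le]
        rintro _ ⟨i, _, rfl⟩
        exact Ideal.pow_mem_of_mem _ (y_mem y hy i) _ (by have := ht i; omega)
      exact (maximalIdeal.isMaximal B).ne_top ((Ideal.eq_top_iff_one _).mpr (h2 hmem))
    · push Not at hall
      obtain ⟨j, hj1⟩ := hall
      have hj2 : 2 ≤ t j := by have := ht j; omega
      have hjS : j ∈ (Finset.univ : Finset (Fin n)) := Finset.mem_univ j
      set t' := Function.update t j (t j - 1) with ht'
      have hprod : ∏ k, y k ^ (t k - 1) = y j * ∏ k, y k ^ (t' k - 1) := by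
        rw [← Finset.mul_prod_erase _ _ hjS, ← Finset.mul_prod_erase _ _ hjS, ht',
          Function.update_self, ← mul_assoc, ← pow_succ']
        congr 1
        · congr 1; omega
        · refine Finset.prod_congr rfl fun k hk => ?_
          rw [Function.update_of_ne (Finset.mem_erase.mp hk).1]
      rw [hprod, powIdeal_eq_erase y t hjS] at hmem
      obtain ⟨w', hw', z', hz', hsum⟩ := Submodule.mem_sup.mp hmem
      obtain ⟨v'', rfl⟩ := Ideal.mem_span_singleton'.mp hz'
      have hpow : y j ^ t j = y j * y j ^ (t j - 1) := by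
        rw [← pow_succ']; congr 1; omega
      have h3 : y j * ((∏ k, y k ^ (t' k - 1)) - v'' * y j ^ (t j - 1)) ∈
          powIdeal y (Finset.univ.erase j) t := by
        have : y j * ((∏ k, y k ^ (t' k - 1)) - v'' * y j ^ (t j - 1)) = w' := by
          rw [hpow] at hsum
          linear_combination -hsum
        rw [this]; exact hw'
      have h4 := colon hd y hy _ _ t j _ (fun k _ => ht k) le_rfl (Finset.notMem_erase _ _) h3
      have hsumU : ∑ k, t' k < ∑ k, t k := by
        rw [← Finset.add_sum_erase _ _ hjS, ← Finset.add_sum_erase _ t hjS, ht',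
          Function.update_self]
        have : ∑ k ∈ Finset.univ.erase j, Function.update t j (t j - 1) k =
            ∑ k ∈ Finset.univ.erase j, t k := by
          refine Finset.sum_congr rfl fun k hk => ?_
          rw [Function.update_of_ne (Finset.mem_erase.mp hk).1]
        rw [this]
        omega
      refine ih (∑ k, t' k) (by omega) t' ?_ le_rfl ?_
      · intro k
        rw [ht']
        by_cases hkj : k = j
        · subst hkj; rw [Function.update_self]; omega
        · rw [Function.update_of_ne hkj]; exact ht k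
      · rw [ht', powIdeal_erase y t hjS]
        have : (∏ k, y k ^ (t' k - 1)) = ((∏ k, y k ^ (t' k - 1)) - v'' * y j ^ (t j - 1)) +
            v'' * y j ^ (t j - 1) := by ring
        rw [← ht', this]
        exact Ideal.add_mem _ (Ideal.mem_sup_left h4)
          (Ideal.mem_sup_right (Ideal.mul_mem_left _ _ (Ideal.mem_span_singleton_self _)))

end

end Pool.Agent.H503R3.FPR
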